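import Pool.Agent.Helper33_AT8.TR2A

/-!
# Squad AT8, row TR2: the block matrices
-/

open scoped BigOperators
open Matrix

noncomputable section

namespace Pool.Agent.PP.T8.H33

variable {R F : Type*} [CommRing R] [IsDomain R] [Field F] (r : R →+* F)
  {n : Type*} [Fintype n] [DecidableEq n]

omit [IsDomain R] [DecidableEq n] in
theorem tr_blocks (A B C D : Matrix n n R) : (fromBlocks A B C D).trace = A.trace + D.trace := by
  simp [Matrix.trace, Fintype.sum_sum_type]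

theorem core (hloc : ∀ x, r x ≠ 0 → IsUnit x)
    (hid : ∀ E : Matrix (n ⊕ n) (n ⊕ n) R, E * E = E → E.trace = 0 → E = 0)
    (ω ω' : R) (hωω : ω * ω' = 1) (hω1 : ω ≠ 1) (t : R) (P₁ P₂ φ φ' D : Matrix n n R)
    (h1 : P₁ * P₁ = P₁) (h2 : P₂ * P₂ = P₂) (hD1 : D * P₁ = P₁ * D) (hD2 : D * P₂ = P₂ * D)
    (hφ : D * φ = ω • (φ * D)) (hφ' : D * φ' = ω' • (φ' * D))
    (rφ : r.mapMatrix φ = r.mapMatrix P₁ - r.mapMatrix P₂)
    (rφ' : r.mapMatrix φ' = r.mapMatrix P₁ - r.mapMatrix P₂)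
    (hA : (r.mapMatrix P₁ * r.mapMatrix P₂ * r.mapMatrix P₁ +
      r t • ((r.mapMatrix P₁ - r.mapMatrix P₁ * r.mapMatrix P₂ * r.mapMatrix P₁) *
        (r.mapMatrix P₁ - r.mapMatrix P₁ * r.mapMatrix P₂ * r.mapMatrix P₁)) +
      (1 - r.mapMatrix P₁)).det ≠ 0)
    (hB : (r.mapMatrix P₂ * r.mapMatrix P₁ * r.mapMatrix P₂ +
      r t • ((r.mapMatrix P₂ - r.mapMatrix P₂ * r.mapMatrix P₁ * r.mapMatrix P₂) *
        (r.mapMatrix P₂ - r.mapMatrix P₂ * r.mapMatrix P₁ * r.mapMatrix P₂)) +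
      (1 - r.mapMatrix P₂)).det ≠ 0) : (D * P₁).trace = (D * P₂).trace := by
  obtain ⟨Φ, hΦ⟩ : ∃ Φ, Φ = fromBlocks (P₂ * P₁) (t • (P₂ * φ * P₂)) (P₁ * φ' * P₁) (P₁ * P₂) :=
    ⟨_, rfl⟩
  obtain ⟨Ψ, hΨ⟩ : ∃ Ψ, Ψ = fromBlocks (P₁ * P₂) (t • (P₁ - P₁ * P₂ * P₁))
    (-(P₂ - P₂ * P₁ * P₂)) (P₂ * P₁) := ⟨_, rfl⟩
  obtain ⟨P, hP⟩ : ∃ P : Matrix (n ⊕ n) (n ⊕ n) R, P = fromBlocks P₁ 0 0 P₂ := ⟨_, rfl⟩
  obtain ⟨Q, hQ⟩ : ∃ Q : Matrix (n ⊕ n) (n ⊕ n) R, Q = fromBlocks P₂ 0 0 P₁ := ⟨_, rfl⟩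
  obtain ⟨T, hT⟩ : ∃ T : Matrix (n ⊕ n) (n ⊕ n) R, T = fromBlocks D 0 0 (ω • D) := ⟨_, rfl⟩
  have a1 : ∀ A : Matrix n n R, P₁ * (P₁ * A) = P₁ * A := fun A => by rw [← mul_assoc, h1]
  have a2 : ∀ A : Matrix n n R, P₂ * (P₂ * A) = P₂ * A := fun A => by rw [← mul_assoc, h2]
  have hPP : P * P = P := by
    rw [hP, fromBlocks_multiply]
    simp only [mul_zero, zero_mul, add_zero, zero_add, h1, h2]
  have hQQ : Q * Q = Q := by
    rw [hQ, fromBlocks_multiply]
    simp only [mul_zero, zero_mul, add_zero, zero_add, h1, h2]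
  have hΦP : Φ * P = Φ := by
    rw [hΦ, hP, fromBlocks_multiply]
    simp only [mul_zero, add_zero, zero_add, smul_mul_assoc, mul_assoc, h1, h2]
  have hQΦ : Q * Φ = Φ := by
    rw [hΦ, hQ, fromBlocks_multiply]
    simp only [zero_mul, add_zero, zero_add, mul_smul_comm, mul_assoc, a1, a2, smul_zero]
  have hPΨ : P * Ψ = Ψ := by
    rw [hΨ, hP, fromBlocks_multiply]
    simp only [zero_mul, add_zero, zero_add, mul_smul_comm, mul_assoc, mul_sub, mul_neg, a1, a2,
      h1, h2, smul_zero, sub_zero, neg_zero]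
  have hΨQ : Ψ * Q = Ψ := by
    rw [hΨ, hQ, fromBlocks_multiply]
    simp only [mul_zero, add_zero, zero_add, smul_mul_assoc, mul_assoc, sub_mul, neg_mul,
      h1, h2]
  have hTΦ : T * Φ = Φ * T := by
    rw [hΦ, hT, fromBlocks_multiply, fromBlocks_multiply]
    simp only [zero_mul, mul_zero, add_zero, zero_add]
    congr 1
    · rw [← mul_assoc, hD2, mul_assoc, hD1, mul_assoc]
    · rw [mul_smul_comm, smul_mul_assoc, mul_smul_comm]
      congr 1
      calc D * (P₂ * φ * P₂) = (D * P₂) * φ * P₂ := by simp only [mul_assoc]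
        _ = P₂ * (D * φ) * P₂ := by rw [hD2]; simp only [mul_assoc]
        _ = ω • (P₂ * φ * (D * P₂)) := by
            rw [hφ, mul_smul_comm, smul_mul_assoc]; simp only [mul_assoc]
        _ = ω • (P₂ * φ * P₂ * D) := by rw [hD2]; simp only [mul_assoc]
    · rw [smul_mul_assoc]
      calc ω • (D * (P₁ * φ' * P₁)) = ω • ((D * P₁) * φ' * P₁) := by simp only [mul_assoc]
        _ = ω • (P₁ * (D * φ') * P₁) := by rw [hD1]; simp only [mul_assoc]
        _ = (ω * ω') • (P₁ * φ' * (D * P₁)) := by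
            rw [hφ', mul_smul_comm, smul_mul_assoc, smul_smul]; simp only [mul_assoc]
        _ = P₁ * φ' * P₁ * D := by rw [hωω, one_smul, hD1]; simp only [mul_assoc]
    · rw [smul_mul_assoc, mul_smul_comm]
      congr 1
      rw [← mul_assoc, hD1, mul_assoc, hD2, mul_assoc]
  obtain ⟨Z, hZ⟩ : ∃ Z, Z = Ψ * Φ + 1 - P := ⟨_, rfl⟩
  have hdet : IsUnit Z.det := by
    refine hloc _ ?_
    have rsm : ∀ (a : R) (A : Matrix n n R), r.mapMatrix (a • A) = r a • r.mapMatrix A := by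
      intro a A
      ext i j
      simp
    have e1 : r.mapMatrix Z = fromBlocks
        (r.mapMatrix P₁ * r.mapMatrix P₂ * r.mapMatrix P₁ +
          r t • ((r.mapMatrix P₁ - r.mapMatrix P₁ * r.mapMatrix P₂ * r.mapMatrix P₁) *
            (r.mapMatrix P₁ - r.mapMatrix P₁ * r.mapMatrix P₂ * r.mapMatrix P₁)) +
          (1 - r.mapMatrix P₁)) 0 0
        (r.mapMatrix P₂ * r.mapMatrix P₁ * r.mapMatrix P₂ +
          r t • ((r.mapMatrix P₂ - r.mapMatrix P₂ * r.mapMatrix P₁ * r.mapMatrix P₂) *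
            (r.mapMatrix P₂ - r.mapMatrix P₂ * r.mapMatrix P₁ * r.mapMatrix P₂)) +
          (1 - r.mapMatrix P₂)) := by
      have e2 : r.mapMatrix Z = r.mapMatrix Ψ * r.mapMatrix Φ + 1 - r.mapMatrix P := by
        rw [hZ, map_sub, map_add, map_mul, map_one]
      have k1 : r.mapMatrix P₁ * r.mapMatrix P₁ = r.mapMatrix P₁ := by rw [← map_mul, h1]
      have k2 : r.mapMatrix P₂ * r.mapMatrix P₂ = r.mapMatrix P₂ := by rw [← map_mul, h2]
      have eΦ : r.mapMatrix Φ = fromBlocks (r.mapMatrix P₂ * r.mapMatrix P₁)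
          (r t • (r.mapMatrix P₂ * (r.mapMatrix P₁ - r.mapMatrix P₂) * r.mapMatrix P₂))
          (r.mapMatrix P₁ * (r.mapMatrix P₁ - r.mapMatrix P₂) * r.mapMatrix P₁)
          (r.mapMatrix P₁ * r.mapMatrix P₂) := by
        rw [hΦ, RingHom.mapMatrix_apply, fromBlocks_map]
        simp only [← RingHom.mapMatrix_apply, map_mul, rsm, rφ, rφ']
      have eΨ : r.mapMatrix Ψ = fromBlocks (r.mapMatrix P₁ * r.mapMatrix P₂)
          (r t • (r.mapMatrix P₁ - r.mapMatrix P₁ * r.mapMatrix P₂ * r.mapMatrix P₁))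
          (-(r.mapMatrix P₂ - r.mapMatrix P₂ * r.mapMatrix P₁ * r.mapMatrix P₂))
          (r.mapMatrix P₂ * r.mapMatrix P₁) := by
        rw [hΨ, RingHom.mapMatrix_apply, fromBlocks_map]
        simp only [← RingHom.mapMatrix_apply, map_mul, rsm, map_sub, map_neg]
      have eP : r.mapMatrix P = fromBlocks (r.mapMatrix P₁) 0 0 (r.mapMatrix P₂) := by
        rw [hP, RingHom.mapMatrix_apply, fromBlocks_map]
        simp only [← RingHom.mapMatrix_apply]
        congr 1 <;> · ext i j; simp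
      rw [e2, eΦ, eΨ, eP]
      generalize r.mapMatrix P₁ = p at *
      generalize r.mapMatrix P₂ = q at *
      have b1 : ∀ A : Matrix n n F, p * (p * A) = p * A := fun A => by rw [← mul_assoc, k1]
      have b2 : ∀ A : Matrix n n F, q * (q * A) = q * A := fun A => by rw [← mul_assoc, k2]
      rw [fromBlocks_multiply, ← fromBlocks_one, fromBlocks_add, sub_eq_add_neg, fromBlocks_neg,
        fromBlocks_add]
      congr 1
      · have e3 : p * (p - q) * p = p - p * q * p := by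
          rw [mul_sub, sub_mul, k1, k1]
        have e4 : p * q * (q * p) = p * q * p := by
          simp only [mul_assoc, b2]
        rw [e3, e4, smul_mul_assoc]
        abel
      · simp only [mul_sub, sub_mul, mul_assoc, mul_smul_comm, smul_mul_assoc, b1, b2, k2,
          smul_sub]
        abel
      · simp only [mul_sub, sub_mul, mul_assoc, b1, b2, k1, neg_mul]
        abel
      · have e3 : q * (p - q) * q = q * p * q - q := by
          rw [mul_sub, sub_mul, k2, k2]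
        have e4 : q * p * (p * q) = q * p * q := by
          simp only [mul_assoc, b1]
        rw [e3, e4, mul_smul_comm, neg_mul, ← mul_neg, neg_sub]
        abel
    rw [RingHom.map_det, e1, det_fromBlocks_zero₂₁]
    exact mul_ne_zero hA hB
  have hiZ : Z⁻¹ * Z = 1 := Matrix.nonsing_inv_mul Z hdet
  have hZP : Z * P = Ψ * Φ := by
    rw [hZ, sub_mul, add_mul, mul_assoc, hΦP, one_mul, hPP]
    abel
  obtain ⟨S, hS⟩ : ∃ S, S = Z⁻¹ * Ψ := ⟨_, rfl⟩
  have hSΦ : S * Φ = P := by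
    rw [hS, mul_assoc, ← hZP, ← mul_assoc, hiZ, one_mul]
  have hSQ : S * Q = S := by
    rw [hS, mul_assoc, hΨQ]
  have hE : (Q - Φ * S) * (Q - Φ * S) = Q - Φ * S := by
    have e1 : Q * (Φ * S) = Φ * S := by rw [← mul_assoc, hQΦ]
    have e2 : Φ * S * Q = Φ * S := by rw [mul_assoc, hSQ]
    have e3 : Φ * S * (Φ * S) = Φ * S := by
      calc Φ * S * (Φ * S) = Φ * (S * Φ) * S := by simp only [mul_assoc]
        _ = Φ * S := by rw [hSΦ, hΦP]
    rw [sub_mul, mul_sub, mul_sub, hQQ, e1, e2, e3]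
    abel
  have htr : (Q - Φ * S).trace = 0 := by
    rw [Matrix.trace_sub, Matrix.trace_mul_comm, hSΦ, hP, hQ, tr_blocks, tr_blocks]
    ring
  have hQE : Q = Φ * S := sub_eq_zero.1 (hid _ hE htr)
  have hfin : (T * Q).trace = (T * P).trace := by
    calc (T * Q).trace = (T * Φ * S).trace := by rw [hQE, mul_assoc]
      _ = (Φ * (T * S)).trace := by rw [hTΦ, mul_assoc]
      _ = (T * S * Φ).trace := by rw [Matrix.trace_mul_comm]
      _ = (T * P).trace := by rw [mul_assoc, hSΦ]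
  rw [hT, hP, hQ, fromBlocks_multiply, fromBlocks_multiply, tr_blocks,
    tr_blocks] at hfin
  simp only [mul_zero, add_zero, zero_add, smul_mul_assoc, trace_smul, smul_eq_mul] at hfin
  have h5 : (1 - ω) * ((D * P₁).trace - (D * P₂).trace) = 0 := by
    linear_combination -hfin
  rcases mul_eq_zero.1 h5 with h | h
  · exact absurd (sub_eq_zero.1 h).symm hω1
  · exact sub_eq_zero.1 h

end Pool.Agent.PP.T8.H33
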