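import Pool.Agent.AT8.Stmts1
import Pool.Agent.Helper50_PP.Ffa
import Pool.Agent.Helper33_AT8.TR2B

/-!
# Squad AT8, row TR2
-/

open scoped BigOperators
open Matrix

noncomputable section

namespace Pool.Agent.PP.T8.H33

open Pool.Agent.Helper51_AWC Pool.Agent.Helper79_WRA Pool.Agent.PP Pool.Agent.PP.KF
open Pool.Agent.PP.K9 Pool.Agent.PP.K9.H97 Pool.Agent.PP.H75

attribute [local instance] Ideal.Quotient.field

/-- an idempotent matrix with trace zero is zero -/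
theorem idem_zero {n : Type*} [Fintype n] [DecidableEq n] (E : Matrix n n ℂ) (h : E * E = E)
    (h0 : E.trace = 0) : E = 0 := by
  have h1 : IsIdempotentElem (Matrix.toLin' E) := by
    change Matrix.toLin' E * Matrix.toLin' E = Matrix.toLin' E
    rw [Module.End.mul_eq_comp, ← Matrix.toLin'_mul, h]
  have h2 : LinearMap.trace ℂ _ (Matrix.toLin' E) = 0 := by
    rw [Matrix.trace_toLin'_eq, h0]
  have h3 := LinearMap.IsIdempotentElem.eq_zero_of_trace_eq_zero h1 h2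
  exact Matrix.toLin'.map_eq_zero_iff.1 h3

theorem tr2 : Tr2Stmt := by
  intro ℓ hℓF M _ hℓ n _ _ P₁ P₂ U W V X m hm hmℓ hPi hQi hUi hWi hVi hXi hPP hQQ hUW hV hUP hUQ
    hVP hVQ hUV hXU hs
  have hp : ℓ.Prime := hℓF.out
  -- the matrices over the local ring
  let P' : Matrix n n (RM M) := Matrix.of fun i j => ⟨P₁ i j, hPi i j⟩
  let Q' : Matrix n n (RM M) := Matrix.of fun i j => ⟨P₂ i j, hQi i j⟩
  let U' : Matrix n n (RM M) := Matrix.of fun i j => ⟨U i j, hUi i j⟩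
  let W' : Matrix n n (RM M) := Matrix.of fun i j => ⟨W i j, hWi i j⟩
  let V' : Matrix n n (RM M) := Matrix.of fun i j => ⟨V i j, hVi i j⟩
  let X' : Matrix n n (RM M) := Matrix.of fun i j => ⟨X i j, hXi i j⟩
  let s : Matrix n n (RM M) →+* Matrix n n ℂ := (RM M).subtype.mapMatrix
  have sinj : Function.Injective s := by
    intro A B h
    ext i j
    exact congrFun (congrFun h i) j
  have sP : s P' = P₁ := by ext i j; rfl
  have sQ : s Q' = P₂ := by ext i j; rfl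
  have sU : s U' = U := by ext i j; rfl
  have sW : s W' = W := by ext i j; rfl
  have sV : s V' = V := by ext i j; rfl
  have sX : s X' = X := by ext i j; rfl
  have rP : (rrHom M).mapMatrix P' = P₁.map (rr M) := by ext i j; rfl
  have rQ : (rrHom M).mapMatrix Q' = P₂.map (rr M) := by ext i j; rfl
  have rU : (rrHom M).mapMatrix U' = U.map (rr M) := by ext i j; rfl
  have rW : (rrHom M).mapMatrix W' = W.map (rr M) := by ext i j; rfl
  have rX : (rrHom M).mapMatrix X' = X.map (rr M) := by ext i j; rfl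
  clear_value P' Q' U' W' V' X'
  have hloc : ∀ x : RM M, rrHom M x ≠ 0 → IsUnit x := by
    intro x hx
    obtain ⟨h1, h2⟩ := inv_RM x.2 hx
    refine isUnit_iff_exists_inv.2 ⟨⟨_, h1⟩, ?_⟩
    apply Subtype.ext
    exact mul_inv_cancel₀ h2
  have hid : ∀ E : Matrix (n ⊕ n) (n ⊕ n) (RM M), E * E = E → E.trace = 0 → E = 0 := by
    intro E h h0
    have e1 : (RM M).subtype.mapMatrix E = 0 := by
      refine idem_zero _ (by rw [← map_mul, h]) ?_
      have := AddMonoidHom.map_trace (RM M).subtype E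
      rw [h0, map_zero] at this
      exact this.symm
    ext i j
    exact congrFun (congrFun e1 i) j
  -- the root of unity
  have hprim := Complex.isPrimitiveRoot_exp ℓ hp.ne_zero
  obtain ⟨ω, hω⟩ : ∃ ω, ω = Complex.exp (2 * Real.pi * Complex.I / ℓ) := ⟨_, rfl⟩
  rw [← hω] at hprim
  have hωi : IsIntegral ℤ ω := hprim.isIntegral hp.pos
  let ω' : RM M := ⟨ω, RM_of_int hωi⟩
  have h1 : ω' ^ ℓ = 1 := by
    apply Subtype.ext
    exact hprim.pow_eq_one
  have h2 : ω' ≠ 1 := by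
    intro h
    exact hprim.ne_one hp.one_lt (congrArg Subtype.val h)
  have : CharP (FF M) ℓ := H50.charP_ff ℓ hp M hℓ
  have h3 : rrHom M ω' = 1 := by
    have e1 : rrHom M ω' ^ ℓ = 1 := by
      rw [← map_pow, h1, map_one]
    have e2 : (rrHom M ω' - 1) ^ ℓ = 0 := by
      rw [sub_pow_char, e1, one_pow, sub_self]
    exact sub_eq_zero.1 (pow_eq_zero_iff hp.ne_zero |>.1 e2)
  have h4 : rrHom M (m : RM M) ≠ 0 := by
    rw [map_natCast]
    intro h
    exact hmℓ ((CharP.cast_eq_zero_iff (FF M) ℓ m).1 h)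
  obtain ⟨c, hc⟩ : ∃ c : RM M, c * (m : RM M) = 1 := by
    obtain ⟨u, hu⟩ := hloc _ h4
    exact ⟨(u⁻¹ : (RM M)ˣ), by rw [← hu]; simp⟩
  have g1 : ω' * ω' ^ (ℓ - 1) = 1 := by
    rw [← pow_succ', Nat.sub_add_cancel hp.one_le, h1]
  have g2 : (ω' ^ (ℓ - 1)) ^ ℓ = 1 := by
    rw [← pow_mul, mul_comm, pow_mul, h1, one_pow]
  have g3 : rrHom M (ω' ^ (ℓ - 1)) = 1 := by
    rw [map_pow, h3, one_pow]
  -- the relations over the local ring
  have kPP : P' * P' = P' := sinj (by rw [map_mul, sP, hPP])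
  have kQQ : Q' * Q' = Q' := sinj (by rw [map_mul, sQ, hQQ])
  have kUW : U' * W' = 1 := sinj (by rw [map_mul, sU, sW, hUW, map_one])
  have kV : V' ^ m = 1 := sinj (by rw [map_pow, sV, hV, map_one])
  have kUP : U' * P' = P' * U' := sinj (by rw [map_mul, map_mul, sU, sP, hUP])
  have kUQ : U' * Q' = Q' * U' := sinj (by rw [map_mul, map_mul, sU, sQ, hUQ])
  have kVP : V' * P' = P' * V' := sinj (by rw [map_mul, map_mul, sV, sP, hVP])
  have kVQ : V' * Q' = Q' * V' := sinj (by rw [map_mul, map_mul, sV, sQ, hVQ])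
  have kUV : U' * V' = V' * U' := sinj (by rw [map_mul, map_mul, sU, sV, hUV])
  have kXU : X' * U' ^ ℓ = U' ^ ℓ * X' := sinj (by rw [map_mul, map_mul, map_pow, sU, sX, hXU])
  obtain ⟨Y, hY1, hY2, hY3⟩ := avg (rrHom M) ℓ U' W' V' X' m c hc kUW kV kUV kXU
    ((rrHom M).mapMatrix P' - (rrHom M).mapMatrix Q')
    (by rw [mul_sub, sub_mul, ← map_mul, ← map_mul, ← map_mul, ← map_mul, kVP, kVQ])
    (by rw [rP, rQ, rU, rW, rX]; exact hs)
  obtain ⟨φ, f1, f2, f3⟩ := phi (rrHom M) ℓ U' W' V' Y ω' h1 h3 kUW kUV hY1 hY2 _ hY3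
  obtain ⟨φ', f1', f2', f3'⟩ := phi (rrHom M) ℓ U' W' V' Y (ω' ^ (ℓ - 1)) g2 g3 kUW kUV hY1 hY2
    _ hY3
  have : IsAlgClosed (FF M) := H50.closed_ff M
  obtain ⟨t', ht1, ht2⟩ := exists_t ((rrHom M).mapMatrix P') ((rrHom M).mapMatrix Q')
    (by rw [← map_mul, kPP]) (by rw [← map_mul, kQQ])
  obtain ⟨t0, ht0, ht3⟩ := rr_surj (M := M) t'
  let t : RM M := ⟨t0, ht0⟩
  have ht : rrHom M t = t' := ht3
  rw [← ht] at ht1 ht2
  have hDφ : ∀ (w : RM M) (ψ : Matrix n n (RM M)), U' * ψ = w • (ψ * U') → V' * ψ = ψ * V' →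
      U' * V' * ψ = w • (ψ * (U' * V')) := by
    intro w ψ e1 e2
    rw [mul_assoc, e2, ← mul_assoc, e1, smul_mul_assoc, mul_assoc]
  have key := core (rrHom M) hloc hid ω' (ω' ^ (ℓ - 1)) g1 h2 t P' Q' φ φ' (U' * V') kPP kQQ
    (by rw [mul_assoc, kVP, ← mul_assoc, kUP, mul_assoc])
    (by rw [mul_assoc, kVQ, ← mul_assoc, kUQ, mul_assoc])
    (hDφ _ _ f1 f2) (hDφ _ _ f1' f2') f3 f3' ht1 ht2
  have h5 : (U * V * P₁).trace = (RM M).subtype (U' * V' * P').trace := by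
    rw [← sP, ← sU, ← sV, ← map_mul, ← map_mul]
    exact (AddMonoidHom.map_trace (RM M).subtype (U' * V' * P')).symm
  have h6 : (U * V * P₂).trace = (RM M).subtype (U' * V' * Q').trace := by
    rw [← sQ, ← sU, ← sV, ← map_mul, ← map_mul]
    exact (AddMonoidHom.map_trace (RM M).subtype (U' * V' * Q')).symm
  rw [h5, h6, key]

end Pool.Agent.PP.T8.H33
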