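import Mathlib
import Pool.Agent.Helper23_AT3.TrgCore

/-!
# Squad AT8, row TR2: the field part and the averages
-/

open scoped BigOperators
open Matrix

noncomputable section

namespace Pool.Agent.PP.T8.H33

section field

variable {F : Type*} [Field F] {n : Type*} [Fintype n] [DecidableEq n]

/-- `a + t (p - a)² + (1 - p)` is invertible if no eigenvalue `μ` of `a` satisfies
`t (1 - μ)² + μ = 0`. -/
theorem det_ne [IsAlgClosed F] (p a : Matrix n n F) (hp : p * p = p) (hpa : p * a = a)
    (hap : a * p = a) (t : F) (ht : t ≠ 0)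
    (hav : ∀ μ : F, ∀ v : n → F, v ≠ 0 → a *ᵥ v = μ • v → t * (1 - μ) ^ 2 + μ ≠ 0) :
    (a + t • ((p - a) * (p - a)) + (1 - p)).det ≠ 0 := by
  intro hdet
  obtain ⟨v, hv, hAv⟩ := Matrix.exists_mulVec_eq_zero_iff.2 hdet
  have h1 : (1 - p) * (a + t • ((p - a) * (p - a)) + (1 - p)) = 1 - p := by
    have e1 : (1 - p) * a = 0 := by rw [sub_mul, one_mul, hpa, sub_self]
    have e2 : (1 - p) * (p - a) = 0 := by
      rw [mul_sub, e1, sub_zero, sub_mul, one_mul, hp, sub_self]
    have e3 : (1 - p) * (1 - p) = 1 - p := by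
      rw [mul_sub, mul_one, sub_mul, one_mul, hp, sub_self, sub_zero]
    rw [mul_add, mul_add, e1, mul_smul_comm, ← mul_assoc, e2, zero_mul, smul_zero, e3]
    simp
  have h2 : (1 - p) *ᵥ v = 0 := by
    rw [← h1, ← Matrix.mulVec_mulVec, hAv, Matrix.mulVec_zero]
  have h3 : p *ᵥ v = v := by
    rw [Matrix.sub_mulVec, Matrix.one_mulVec] at h2
    exact (sub_eq_zero.1 h2).symm
  have h4 : (p - a) * (p - a) = p - a - a + a * a := by
    rw [sub_mul, mul_sub, mul_sub, hp, hpa, hap]
    abel
  obtain ⟨w, hw⟩ : ∃ w, w = a *ᵥ v := ⟨_, rfl⟩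
  obtain ⟨z, hz⟩ : ∃ z, z = a *ᵥ w := ⟨_, rfl⟩
  have h5 : w + t • (v - w - w + z) = 0 := by
    have e1 : (a + t • ((p - a) * (p - a)) + (1 - p)) *ᵥ v =
        a *ᵥ v + t • (p *ᵥ v - a *ᵥ v - a *ᵥ v + a *ᵥ (a *ᵥ v)) + (1 - p) *ᵥ v := by
      rw [h4, Matrix.add_mulVec, Matrix.add_mulVec, Matrix.smul_mulVec, Matrix.add_mulVec,
        Matrix.sub_mulVec, Matrix.sub_mulVec, Matrix.mulVec_mulVec]
    rw [h2, h3, ← hw, ← hz, add_zero] at e1
    rw [← e1]
    exact hAv
  obtain ⟨s, hs⟩ : ∃ s : F, t * s ^ 2 + (-1) * s + 1 = 0 := by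
    obtain ⟨s, hs⟩ := IsAlgClosed.exists_root (Polynomial.C t * Polynomial.X ^ 2 +
      Polynomial.C (-1) * Polynomial.X + Polynomial.C 1) (by
        rw [Polynomial.degree_quadratic ht]
        decide)
    refine ⟨s, ?_⟩
    simpa [Polynomial.IsRoot] using hs
  obtain ⟨y, hy⟩ : ∃ y, y = w - (1 - s) • v := ⟨_, rfl⟩
  have hay : a *ᵥ y = (1 + s - t⁻¹) • y := by
    have e1 : a *ᵥ y = z - (1 - s) • w := by
      rw [hy, Matrix.mulVec_sub, Matrix.mulVec_smul, ← hw, ← hz]
    have e2 : t • (z - (1 - s) • w - (1 + s - t⁻¹) • y) = 0 := by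
      rw [hy, ← h5]
      ext i
      simp only [Pi.smul_apply, Pi.sub_apply, Pi.add_apply, smul_eq_mul]
      field_simp
      linear_combination (-(v i)) * hs
    rcases smul_eq_zero.1 e2 with h | h
    · exact absurd h ht
    · rw [e1]
      exact sub_eq_zero.1 h
  by_cases hy0 : y = 0
  · refine hav (1 - s) v hv ?_ ?_
    · rw [← hw]
      exact sub_eq_zero.1 (hy.symm.trans hy0)
    · linear_combination hs
  · refine hav (1 + s - t⁻¹) y hy0 hay ?_
    have e3 : t * t⁻¹ = 1 := mul_inv_cancel₀ ht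
    linear_combination hs + (t⁻¹ - 2 * s - 1 + 1) * e3

/-- the eigenvalues are roots of the characteristic polynomial -/
theorem eig_mem (a : Matrix n n F) (μ : F) (v : n → F) (hv : v ≠ 0) (h : a *ᵥ v = μ • v) :
    μ ∈ a.charpoly.roots := by
  rw [Polynomial.mem_roots (Matrix.charpoly_monic a).ne_zero, Polynomial.IsRoot,
    Matrix.eval_charpoly]
  refine Matrix.exists_mulVec_eq_zero_iff.1 ⟨v, hv, ?_⟩
  rw [Matrix.sub_mulVec, h]
  ext i
  simp [Matrix.scalar_apply, Matrix.mulVec_diagonal]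

theorem exists_t [IsAlgClosed F] (p q : Matrix n n F) (hp : p * p = p) (hq : q * q = q) :
    ∃ t : F, (p * q * p + t • ((p - p * q * p) * (p - p * q * p)) + (1 - p)).det ≠ 0 ∧
      (q * p * q + t • ((q - q * p * q) * (q - q * p * q)) + (1 - q)).det ≠ 0 := by
  classical
  obtain ⟨t, ht⟩ := Infinite.exists_notMem_finset (insert (0 : F)
    (((p * q * p).charpoly.roots.toFinset ∪ (q * p * q).charpoly.roots.toFinset).image
      (fun μ => -μ / (1 - μ) ^ 2)))
  rw [Finset.mem_insert, not_or] at ht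
  obtain ⟨ht0, ht1⟩ := ht
  have key : ∀ μ : F, μ ∈ (p * q * p).charpoly.roots.toFinset ∪
      (q * p * q).charpoly.roots.toFinset → t * (1 - μ) ^ 2 + μ ≠ 0 := by
    intro μ hμ h0
    apply ht1
    refine Finset.mem_image.2 ⟨μ, hμ, ?_⟩
    have h1 : (1 - μ) ^ 2 ≠ 0 := by
      intro h2
      have h3 : 1 - μ = 0 := by
        exact (pow_eq_zero_iff two_ne_zero).1 h2
      rw [h3] at h0
      have : μ = 1 := (sub_eq_zero.1 h3).symm
      rw [this] at h0
      norm_num at h0
    rw [div_eq_iff h1]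
    linear_combination -h0
  refine ⟨t, ?_, ?_⟩
  · refine det_ne p (p * q * p) hp (by simp only [← mul_assoc, hp]) (by rw [mul_assoc, hp]) t ht0 ?_
    intro μ v hv h
    exact key μ (Finset.mem_union_left _ (Multiset.mem_toFinset.2 (eig_mem _ μ v hv h)))
  · refine det_ne q (q * p * q) hq (by simp only [← mul_assoc, hq]) (by rw [mul_assoc, hq]) t ht0 ?_
    intro μ v hv h
    exact key μ (Finset.mem_union_right _ (Multiset.mem_toFinset.2 (eig_mem _ μ v hv h)))

end field

section avg

variable {R F : Type*} [CommRing R] [Field F] (r : R →+* F)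
  {n : Type*} [Fintype n] [DecidableEq n]

/-- the average of `X` over the powers of `V` -/
theorem avg (l : ℕ) (U W V X : Matrix n n R) (m : ℕ) (c : R) (hc : c * (m : R) = 1)
    (hUW : U * W = 1) (hV : V ^ m = 1) (hUV : U * V = V * U) (hXU : X * U ^ l = U ^ l * X)
    (s : Matrix n n F) (hVs : r.mapMatrix V * s = s * r.mapMatrix V)
    (hs : ∑ i ∈ Finset.range l, r.mapMatrix U ^ i * r.mapMatrix X * r.mapMatrix W ^ i = s) :
    ∃ Y : Matrix n n R, V * Y = Y * V ∧ U ^ l * Y * W ^ l = Y ∧
      ∑ i ∈ Finset.range l, r.mapMatrix U ^ i * r.mapMatrix Y * r.mapMatrix W ^ i = s := by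
  have hWU : W * U = 1 := mul_eq_one_comm.1 hUW
  have hWV : W * V = V * W := by
    calc W * V = W * V * (U * W) := by rw [hUW, mul_one]
      _ = W * (V * U) * W := by simp only [mul_assoc]
      _ = W * (U * V) * W := by rw [hUV]
      _ = (W * U) * V * W := by simp only [mul_assoc]
      _ = V * W := by rw [hWU, one_mul]
  have cUV : ∀ i j, U ^ i * V ^ j = V ^ j * U ^ i := fun i j =>
    (Commute.pow_pow (show Commute U V from hUV) i j)
  have cWV : ∀ i j, W ^ i * V ^ j = V ^ j * W ^ i := fun i j =>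
    (Commute.pow_pow (show Commute W V from hWV) i j)
  have hUWp : ∀ i, U ^ i * W ^ i = 1 := fun i => by
    rw [← (show Commute U W from hUW.trans hWU.symm).mul_pow, hUW, one_pow]
  refine ⟨c • ∑ k ∈ Finset.range m, V ^ k * X * V ^ (m - k), ?_, ?_, ?_⟩
  · rw [mul_smul_comm, smul_mul_assoc, T3.H23.avg_comm V X m hV]
  · have e1 : U ^ l * (c • ∑ k ∈ Finset.range m, V ^ k * X * V ^ (m - k)) =
        (c • ∑ k ∈ Finset.range m, V ^ k * X * V ^ (m - k)) * U ^ l := by
      rw [mul_smul_comm, smul_mul_assoc, Finset.mul_sum, Finset.sum_mul]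
      congr 1
      refine Finset.sum_congr rfl fun k _ => ?_
      calc U ^ l * (V ^ k * X * V ^ (m - k)) = (U ^ l * V ^ k) * X * V ^ (m - k) := by
            simp only [mul_assoc]
        _ = V ^ k * (U ^ l * X) * V ^ (m - k) := by rw [cUV]; simp only [mul_assoc]
        _ = V ^ k * X * (U ^ l * V ^ (m - k)) := by rw [← hXU]; simp only [mul_assoc]
        _ = V ^ k * X * V ^ (m - k) * U ^ l := by rw [cUV]; simp only [mul_assoc]
    rw [e1, mul_assoc, hUWp, mul_one]
  · have rsm : ∀ (a : R) (A : Matrix n n R), r.mapMatrix (a • A) = r a • r.mapMatrix A := by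
      intro a A
      ext i j
      simp
    have fUV : ∀ i j, r.mapMatrix U ^ i * r.mapMatrix V ^ j =
        r.mapMatrix V ^ j * r.mapMatrix U ^ i := fun i j => by
      rw [← map_pow, ← map_pow, ← map_mul, cUV, map_mul]
    have fWV : ∀ i j, r.mapMatrix W ^ i * r.mapMatrix V ^ j =
        r.mapMatrix V ^ j * r.mapMatrix W ^ i := fun i j => by
      rw [← map_pow, ← map_pow, ← map_mul, cWV, map_mul]
    have fV : r.mapMatrix V ^ m = 1 := by rw [← map_pow, hV, map_one]
    have fc : r c * (m : F) = 1 := by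
      have := congrArg r hc
      rwa [map_mul, map_natCast, map_one] at this
    have e0 : r.mapMatrix (c • ∑ k ∈ Finset.range m, V ^ k * X * V ^ (m - k)) =
        r c • ∑ k ∈ Finset.range m, r.mapMatrix V ^ k * r.mapMatrix X *
          r.mapMatrix V ^ (m - k) := by
      rw [rsm, map_sum]
      simp only [map_mul, map_pow]
    rw [e0]
    have hVs' : ∀ k, r.mapMatrix V ^ k * s = s * r.mapMatrix V ^ k := fun k =>
      Commute.pow_left (show Commute (r.mapMatrix V) s from hVs) k
    generalize r.mapMatrix U = u at *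
    generalize r.mapMatrix V = v at *
    generalize r.mapMatrix W = w at *
    generalize r.mapMatrix X = x at *
    have e3 : ∀ i k, u ^ i * (v ^ k * x * v ^ (m - k)) * w ^ i =
        v ^ k * (u ^ i * x * w ^ i) * v ^ (m - k) := by
      intro i k
      calc u ^ i * (v ^ k * x * v ^ (m - k)) * w ^ i
          = (u ^ i * v ^ k) * x * (v ^ (m - k) * w ^ i) := by simp only [mul_assoc]
        _ = v ^ k * (u ^ i * x * w ^ i) * v ^ (m - k) := by
            rw [fUV, ← fWV]; simp only [mul_assoc]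
    calc ∑ i ∈ Finset.range l, u ^ i * (r c • ∑ k ∈ Finset.range m, v ^ k * x * v ^ (m - k)) * w ^ i
        = ∑ i ∈ Finset.range l, r c • ∑ k ∈ Finset.range m,
          v ^ k * (u ^ i * x * w ^ i) * v ^ (m - k) := by
          refine Finset.sum_congr rfl fun i _ => ?_
          rw [mul_smul_comm, smul_mul_assoc, Finset.mul_sum, Finset.sum_mul]
          congr 1
          exact Finset.sum_congr rfl fun k _ => e3 i k
      _ = r c • ∑ k ∈ Finset.range m, v ^ k * (∑ i ∈ Finset.range l, u ^ i * x * w ^ i) *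
          v ^ (m - k) := by
          rw [← Finset.smul_sum, Finset.sum_comm]
          congr 1
          refine Finset.sum_congr rfl fun k _ => ?_
          rw [Finset.mul_sum, Finset.sum_mul]
      _ = r c • ∑ k ∈ Finset.range m, s := by
          congr 1
          refine Finset.sum_congr rfl fun k hk => ?_
          have hk' := Finset.mem_range.1 hk
          rw [hs, hVs', mul_assoc, ← pow_add, show k + (m - k) = m by omega, fV, mul_one]
      _ = s := by
          rw [Finset.sum_const, Finset.card_range, ← Nat.cast_smul_eq_nsmul F, smul_smul, fc,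
            one_smul]

/-- the eigenvector -/
theorem phi (l : ℕ) (U W V Y : Matrix n n R) (ω : R) (hω : ω ^ l = 1) (hrω : r ω = 1)
    (hUW : U * W = 1) (hUV : U * V = V * U) (hVY : V * Y = Y * V) (hY : U ^ l * Y * W ^ l = Y)
    (s : Matrix n n F)
    (hs : ∑ i ∈ Finset.range l, r.mapMatrix U ^ i * r.mapMatrix Y * r.mapMatrix W ^ i = s) :
    ∃ φ : Matrix n n R, U * φ = ω • (φ * U) ∧ V * φ = φ * V ∧ r.mapMatrix φ = s := by
  have hWU : W * U = 1 := mul_eq_one_comm.1 hUW
  have hWV : W * V = V * W := by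
    calc W * V = W * V * (U * W) := by rw [hUW, mul_one]
      _ = W * (V * U) * W := by simp only [mul_assoc]
      _ = W * (U * V) * W := by rw [hUV]
      _ = (W * U) * V * W := by simp only [mul_assoc]
      _ = V * W := by rw [hWU, one_mul]
  have cUV : ∀ i j, U ^ i * V ^ j = V ^ j * U ^ i := fun i j =>
    (Commute.pow_pow (show Commute U V from hUV) i j)
  have cWV : ∀ i j, W ^ i * V ^ j = V ^ j * W ^ i := fun i j =>
    (Commute.pow_pow (show Commute W V from hWV) i j)
  obtain ⟨φ, hφ⟩ : ∃ φ, φ = ∑ i ∈ Finset.range l, ω ^ (l - i) • (U ^ i * Y * W ^ i) := ⟨_, rfl⟩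
  refine ⟨φ, ?_, ?_, ?_⟩
  · have h := T3.H23.eig U W Y l ω hω hY
    rw [← hφ] at h
    calc U * φ = U * φ * (W * U) := by rw [hWU, mul_one]
      _ = (U * φ * W) * U := by simp only [mul_assoc]
      _ = ω • (φ * U) := by rw [h, smul_mul_assoc]
  · rw [hφ, Finset.mul_sum, Finset.sum_mul]
    refine Finset.sum_congr rfl fun i _ => ?_
    rw [mul_smul_comm, smul_mul_assoc]
    congr 1
    have e1 := cUV i 1
    have e2 := cWV i 1
    rw [pow_one] at e1 e2
    calc V * (U ^ i * Y * W ^ i) = (V * U ^ i) * Y * W ^ i := by simp only [mul_assoc]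
      _ = U ^ i * (V * Y) * W ^ i := by rw [← e1]; simp only [mul_assoc]
      _ = U ^ i * Y * (V * W ^ i) := by rw [hVY]; simp only [mul_assoc]
      _ = U ^ i * Y * W ^ i * V := by rw [← e2]; simp only [mul_assoc]
  · have rsm : ∀ (a : R) (A : Matrix n n R), r.mapMatrix (a • A) = r a • r.mapMatrix A := by
      intro a A
      ext i j
      simp
    rw [hφ, map_sum, ← hs]
    refine Finset.sum_congr rfl fun i _ => ?_
    rw [rsm, map_pow, hrω, one_pow, one_smul]
    simp only [map_mul, map_pow]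

end avg

end Pool.Agent.PP.T8.H33
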